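import Pool.Agent.Lib.MP_a271d0_an.GChart

set_option autoImplicit false
open MeasureTheory Filter Topology

namespace Pool.Agent.Lib.MP_a271d0_an.Retired.LargeDilates

/-- For every smooth bounded domain with the origin on its boundary (any curvature), and every
admissible `s`, `p` with `p ≥ N/(N-2)` (strictly if `N = 3`), problem (P) has no positive
solution on all sufficiently large dilates of the domain. -/
theorem result :
    ∀ (N : ℕ), 3 ≤ N →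
  ∀ (Ω : Set (EuclideanSpace ℝ (Fin N))),
    IsOpen Ω → Bornology.IsBounded Ω →
    (∃ ρ : EuclideanSpace ℝ (Fin N) → ℝ,
        ContDiff ℝ ((⊤ : ℕ∞) : WithTop ℕ∞) ρ ∧ Ω = {x | ρ x < 0} ∧
        ∀ x ∈ frontier Ω, fderiv ℝ ρ x ≠ 0) →
    (0 : EuclideanSpace ℝ (Fin N)) ∈ frontier Ω →
  ∀ s : ℝ, 0 < s → s < 2 →
  ∀ p : ℝ, 2 * ((N : ℝ) - s) / ((N : ℝ) - 2) - 1 < p →
    p < ((N : ℝ) + 2) / ((N : ℝ) - 2) →
    (N : ℝ) / ((N : ℝ) - 2) ≤ p → (N = 3 → 3 < p) →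
  ∃ R₀ : ℝ, 0 < R₀ ∧ ∀ R : ℝ, R₀ ≤ R →
  ¬ ∃ u : EuclideanSpace ℝ (Fin N) → ℝ,
    ∃ G : EuclideanSpace ℝ (Fin N) → EuclideanSpace ℝ (Fin N),
    MemLp u 2 volume ∧ MemLp G 2 volume ∧
    (∃ φ : ℕ → EuclideanSpace ℝ (Fin N) → ℝ,
        (∀ n, ContDiff ℝ ((⊤ : ℕ∞) : WithTop ℕ∞) (φ n) ∧
              HasCompactSupport (φ n) ∧ tsupport (φ n) ⊆ (fun x => R • x) '' Ω) ∧
        Tendsto (fun n => eLpNorm (fun x => φ n x - u x) 2 volume) atTop (𝓝 0) ∧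
        Tendsto (fun n => eLpNorm (fun x => gradient (φ n) x - G x) 2 volume)
          atTop (𝓝 0)) ∧
    (∀ᵐ x ∂(volume : Measure (EuclideanSpace ℝ (Fin N))), x ∈ (fun x => R • x) '' Ω → 0 < u x) ∧
    ∀ ψ : EuclideanSpace ℝ (Fin N) → ℝ,
      ContDiff ℝ ((⊤ : ℕ∞) : WithTop ℕ∞) ψ → HasCompactSupport ψ →
        tsupport ψ ⊆ (fun x => R • x) '' Ω →
        Integrable (fun x => inner ℝ (G x) (gradient ψ x)) volume ∧
        Integrable (fun x => u x ^ p * ψ x) volume ∧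
        Integrable (fun x => u x ^ (2 * ((N : ℝ) - s) / ((N : ℝ) - 2) - 1) * ψ x / ‖x‖ ^ s)
          volume ∧
        ∫ x, (inner ℝ (G x) (gradient ψ x) + u x ^ p * ψ x
              - u x ^ (2 * ((N : ℝ) - s) / ((N : ℝ) - 2) - 1) * ψ x / ‖x‖ ^ s) = 0 := by
  intro N hN Ω hΩ hb hρ h0 s hs0 hs2 p hp1 hp2 hp3 hp4
  obtain ⟨ρ, hρ, hΩρ, hd⟩ := hρ
  have hN' : (3:ℝ) ≤ N := by exact_mod_cast hN
  have hfr : ((Module.finrank ℝ (EuclideanSpace ℝ (Fin N)) : ℕ) : ℝ) = N := by simp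
  have h2 : (0:ℝ) < N - 2 := by linarith
  have P : Pool.Agent.Lib.MP_a271d0_an.G.Par (Module.finrank ℝ (EuclideanSpace ℝ (Fin N))) s p
      (2 * ((N : ℝ) - s) / ((N : ℝ) - 2)) (2 * N / (N - 2)) ((N - 2) / 2)
      (N - (p + 1) * ((N - 2) / 2)) := by
    rw [hfr]
    refine ⟨hN', hs0, hs2, rfl, rfl, rfl, rfl, hp1, ?_, hp3, ?_⟩
    · rw [lt_div_iff₀ h2] at hp2 ⊢
      linarith
    · rcases hN.eq_or_lt with h | h
      · have := hp4 h.symm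
        rw [← h]; push_cast; linarith
      · have h4 : (4:ℝ) ≤ N := by exact_mod_cast h
        rw [div_le_iff₀ h2] at hp3
        nlinarith
  obtain ⟨R₀, hR₀, H⟩ := Pool.Agent.Lib.MP_a271d0_an.G.final volume P hΩ hb hρ hΩρ (hd 0 h0) h0
  refine ⟨R₀, hR₀, fun R hR => ?_⟩
  rintro ⟨u, G, hu, hG, ⟨φ, hφ, h3, h4⟩, hpos, heq⟩
  obtain ⟨φ', S⟩ := Pool.Agent.Lib.MP_a271d0_an.G.exists_H10 hu hG hφ h3 h4
  refine H R hR u G φ' ⟨S, hpos, fun ψ hψ => ?_⟩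
  have := (heq ψ hψ.1 hψ.2.1 hψ.2.2).2.2.2
  simpa only [div_eq_mul_inv (_ * ψ _), ← Real.rpow_neg (norm_nonneg _)] using this

end Pool.Agent.Lib.MP_a271d0_an.Retired.LargeDilates
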