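import Pool.Agent.Results.MP_a271d0_an.StrongAbsorption

/-! The retired statement on large dilates, derived from the two-weight theorem. -/

open MeasureTheory Filter Topology

namespace Pool.Agent.Lib.MP_a271d0_an.Retired

theorem old_from_new :
    ∀ (N : ℕ), 3 ≤ N →
  ∀ (Ω : Set (EuclideanSpace ℝ (Fin N))),
    IsOpen Ω → Bornology.IsBounded Ω →
    (∃ ρ : EuclideanSpace ℝ (Fin N) → ℝ,
        ContDiff ℝ ((⊤ : ℕ∞) : WithTop ℕ∞) ρ ∧ Ω = {x | ρ x < 0} ∧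
        ∀ x ∈ frontier Ω, fderiv ℝ ρ x ≠ 0) →
    (0 : EuclideanSpace ℝ (Fin N)) ∈ frontier Ω →
  ∀ s : ℝ, 0 < s → s < 2 →
  ∀ p : ℝ, 2 * ((N : ℝ) - s) / ((N : ℝ) - 2) - 1 < p →
    p < ((N : ℝ) + 2) / ((N : ℝ) - 2) →
    (N : ℝ) / ((N : ℝ) - 2) ≤ p → (N = 3 → 3 < p) →
  ∃ R₀ : ℝ, 0 < R₀ ∧ ∀ R : ℝ, R₀ ≤ R →
  ¬ ∃ u : EuclideanSpace ℝ (Fin N) → ℝ,
    ∃ G : EuclideanSpace ℝ (Fin N) → EuclideanSpace ℝ (Fin N),
    MemLp u 2 volume ∧ MemLp G 2 volume ∧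
    (∃ φ : ℕ → EuclideanSpace ℝ (Fin N) → ℝ,
        (∀ n, ContDiff ℝ ((⊤ : ℕ∞) : WithTop ℕ∞) (φ n) ∧
              HasCompactSupport (φ n) ∧ tsupport (φ n) ⊆ (fun x => R • x) '' Ω) ∧
        Tendsto (fun n => eLpNorm (fun x => φ n x - u x) 2 volume) atTop (𝓝 0) ∧
        Tendsto (fun n => eLpNorm (fun x => gradient (φ n) x - G x) 2 volume)
          atTop (𝓝 0)) ∧
    (∀ᵐ x ∂(volume : Measure (EuclideanSpace ℝ (Fin N))), x ∈ (fun x => R • x) '' Ω → 0 < u x) ∧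
    ∀ ψ : EuclideanSpace ℝ (Fin N) → ℝ,
      ContDiff ℝ ((⊤ : ℕ∞) : WithTop ℕ∞) ψ → HasCompactSupport ψ →
        tsupport ψ ⊆ (fun x => R • x) '' Ω →
        Integrable (fun x => inner ℝ (G x) (gradient ψ x)) volume ∧
        Integrable (fun x => u x ^ p * ψ x) volume ∧
        Integrable (fun x => u x ^ (2 * ((N : ℝ) - s) / ((N : ℝ) - 2) - 1) * ψ x / ‖x‖ ^ s)
          volume ∧
        ∫ x, (inner ℝ (G x) (gradient ψ x) + u x ^ p * ψ x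
              - u x ^ (2 * ((N : ℝ) - s) / ((N : ℝ) - 2) - 1) * ψ x / ‖x‖ ^ s) = 0 := by
  intro N hN Ω hΩ hb hρ h0 s hs0 hs2 p hp1 hp2 hp3 hp4
  obtain ⟨ρ, hρ, hΩρ, hd⟩ := hρ
  have hN' : (3:ℝ) ≤ N := by exact_mod_cast hN
  have h2 : (0:ℝ) < N - 2 := by linarith
  have hd0 := hd 0 h0
  rw [hΩ.frontier_eq] at h0
  have hρ0 : ρ 0 = 0 := by
    have h1 : closure Ω ⊆ {x | ρ x ≤ 0} := by
      apply closure_minimal _ (isClosed_le hρ.continuous continuous_const)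
      rw [hΩρ]; intro x hx; exact le_of_lt (show ρ x < 0 from hx)
    have h2 := h0.2
    rw [hΩρ] at h2
    exact le_antisymm (h1 h0.1) (not_lt.1 h2)
  have hr : p + 1 < 2 * ((N:ℝ) - 0) / (N - 2) := by
    rw [lt_div_iff₀ h2] at hp2 ⊢; linarith
  obtain ⟨C, hC, H⟩ := Pool.Agent.Results.MP_a271d0_an.StrongAbsorption.result N hN 0 s (p + 1)
    le_rfl hs0 hs2 (by linarith) hr Ω ρ hb hρ hρ0 hd0 (by rw [hΩρ]; simp) (fun h => by
      rw [← sub_div, lt_div_iff₀ h2] at h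
      rw [div_le_iff₀ h2] at hp3
      linarith)
  have hγ : 0 < (N : ℝ) - 0 - (p + 1) * (((N : ℝ) - 2) / 2) := by
    rw [lt_div_iff₀ h2] at hr; linarith
  refine ⟨C ^ ((N : ℝ) - 0 - (p + 1) * (((N : ℝ) - 2) / 2))⁻¹, by positivity, fun R hR => ?_⟩
  have hR0 : 0 < R := lt_of_lt_of_le (by positivity) hR
  rintro ⟨u, G, hu, hG, ⟨φ, hφ, h3, h4⟩, hpos, heq⟩
  obtain ⟨φ', S⟩ := Pool.Agent.Lib.MP_a271d0_an.G.exists_H10 hu hG hφ h3 h4
  have hq : 2 < 2 * ((N : ℝ) - s) / ((N : ℝ) - 2) := by rw [lt_div_iff₀ h2]; linarith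
  have hz := H 1 R hR0 (by
    rw [one_mul]
    exact (Real.rpow_inv_le_iff_of_pos hC.le hR0.le hγ).1 hR) u ⟨G, ⟨hu, hG, φ, hφ, h3, h4⟩,
    (fun ψ ⟨a, b, c⟩ => by
      refine (integral_congr_ae ?_).trans (heq ψ a b c).2.2.2
      filter_upwards [hpos, S.zero_out] with x h5 h6
      have h7 : 0 ≤ u x := by
        by_cases hx : x ∈ (fun x => R • x) '' Ω
        · exact (h5 hx).le
        · exact (h6 hx).1.ge
      rw [abs_of_nonneg h7, ← Real.rpow_add_one' h7 (by linarith),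
        ← Real.rpow_add_one' h7 (by linarith), Real.rpow_zero, div_one, one_mul]
      congr 4 <;> ring)⟩
  have ho : IsOpen ((fun x => R • x) '' Ω) := isOpenMap_smul₀ hR0.ne' _ hΩ
  have hne : ((fun x => R • x) '' Ω).Nonempty := (closure_nonempty_iff.1 ⟨0, h0.1⟩).image _
  refine (ho.measure_pos volume hne).ne' ?_
  refine measure_mono_null ?_ (ae_iff.1 (hpos.and hz))
  intro x hx h
  exact (h.1 hx).ne' h.2

end Pool.Agent.Lib.MP_a271d0_an.Retired
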